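import Pool.Agent.SOR.Stmts3

/-!
# Squad SOR, row BRX: the braid group on triples
-/

set_option autoImplicit false

namespace Pool.Agent.SOR.H19

open Pool.Agent.SOR

variable {G : Type} [Group G] {g₁ g₂ : G}

/-- the equation -/
def Eqn (g₁ g₂ : G) (w : G × G × G) : Prop :=
  w.1 * w.2.1 * w.1⁻¹ * w.2.1⁻¹ = g₁ * w.2.2 * g₂ * w.2.2⁻¹

theorem eqn_g {x y u : G} (h : Eqn g₁ g₂ (x, y, u)) :
    g₂ = u⁻¹ * g₁⁻¹ * (x * y * x⁻¹ * y⁻¹) * u := by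
  have h1 : x * y * x⁻¹ * y⁻¹ = g₁ * u * g₂ * u⁻¹ := h
  rw [h1]
  group

theorem eqn_of {x y u : G} (h : g₂ = u⁻¹ * g₁⁻¹ * (x * y * x⁻¹ * y⁻¹) * u) :
    Eqn g₁ g₂ (x, y, u) := by
  change x * y * x⁻¹ * y⁻¹ = g₁ * u * g₂ * u⁻¹
  rw [h]
  group

/-- a permutation of the triples -/
def pm (f f' : G × G × G → G × G × G) (hf : ∀ w, Eqn g₁ g₂ w → Eqn g₁ g₂ (f w))
    (hf' : ∀ w, Eqn g₁ g₂ w → Eqn g₁ g₂ (f' w)) (h1 : ∀ w, f' (f w) = w)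
    (h2 : ∀ w, f (f' w) = w) : Equiv.Perm (Tr G g₁ g₂) where
  toFun z := ⟨f z.1, hf z.1 z.2⟩
  invFun z := ⟨f' z.1, hf' z.1 z.2⟩
  left_inv z := Subtype.ext (h1 z.1)
  right_inv z := Subtype.ext (h2 z.1)

omit [Group G] in
theorem trip {a b c a' b' c' : G} (h1 : a = a') (h2 : b = b') (h3 : c = c') :
    ((a, b, c) : G × G × G) = (a', b', c') := by rw [h1, h2, h3]

variable (g₁ g₂) in
def ga : Equiv.Perm (Tr G g₁ g₂) :=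
  pm (fun w => (w.1, w.2.1 * w.1, w.2.2)) (fun w => (w.1, w.2.1 * w.1⁻¹, w.2.2))
    (by
      rintro ⟨x, y, u⟩ h
      apply eqn_of
      refine (eqn_g h).trans ?_
      group)
    (by
      rintro ⟨x, y, u⟩ h
      apply eqn_of
      refine (eqn_g h).trans ?_
      group)
    (by
      rintro ⟨x, y, u⟩
      exact trip rfl (by group) rfl)
    (by
      rintro ⟨x, y, u⟩
      exact trip rfl (by group) rfl)

variable (g₁ g₂) in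
def gb : Equiv.Perm (Tr G g₁ g₂) :=
  pm (fun w => (w.1 * w.2.1⁻¹, w.2.1, w.2.2)) (fun w => (w.1 * w.2.1, w.2.1, w.2.2))
    (by
      rintro ⟨x, y, u⟩ h
      apply eqn_of
      refine (eqn_g h).trans ?_
      group)
    (by
      rintro ⟨x, y, u⟩ h
      apply eqn_of
      refine (eqn_g h).trans ?_
      group)
    (by
      rintro ⟨x, y, u⟩
      exact trip (by group) rfl rfl)
    (by
      rintro ⟨x, y, u⟩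
      exact trip (by group) rfl rfl)

variable (g₁ g₂) in
def gc : Equiv.Perm (Tr G g₁ g₂) :=
  pm (fun w => (w.1, g₁⁻¹ * w.1 * w.2.1, g₁⁻¹ * w.1 * w.2.2))
    (fun w => (w.1, w.1⁻¹ * g₁ * w.2.1, w.1⁻¹ * g₁ * w.2.2))
    (by
      rintro ⟨x, y, u⟩ h
      apply eqn_of
      refine (eqn_g h).trans ?_
      group)
    (by
      rintro ⟨x, y, u⟩ h
      apply eqn_of
      refine (eqn_g h).trans ?_
      group)
    (by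
      rintro ⟨x, y, u⟩
      exact trip rfl (by group) (by group))
    (by
      rintro ⟨x, y, u⟩
      exact trip rfl (by group) (by group))

variable (g₁ g₂) in
def gt : Equiv.Perm (Tr G g₁ g₂) :=
  pm (fun w => (g₁⁻¹ * w.1 * g₁, g₁⁻¹ * w.2.1 * g₁, g₁⁻¹ * w.2.2 * g₂))
    (fun w => (g₁ * w.1 * g₁⁻¹, g₁ * w.2.1 * g₁⁻¹, g₁ * w.2.2 * g₂⁻¹))
    (by
      rintro ⟨x, y, u⟩ h
      change g₁⁻¹ * x * g₁ * (g₁⁻¹ * y * g₁) * (g₁⁻¹ * x * g₁)⁻¹ * (g₁⁻¹ * y * g₁)⁻¹ =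
        g₁ * (g₁⁻¹ * u * g₂) * g₂ * (g₁⁻¹ * u * g₂)⁻¹
      have h1 : x * y * x⁻¹ * y⁻¹ = g₁ * u * g₂ * u⁻¹ := h
      calc _ = g₁⁻¹ * (x * y * x⁻¹ * y⁻¹) * g₁ := by group
        _ = _ := by rw [h1]; group)
    (by
      rintro ⟨x, y, u⟩ h
      change g₁ * x * g₁⁻¹ * (g₁ * y * g₁⁻¹) * (g₁ * x * g₁⁻¹)⁻¹ * (g₁ * y * g₁⁻¹)⁻¹ =
        g₁ * (g₁ * u * g₂⁻¹) * g₂ * (g₁ * u * g₂⁻¹)⁻¹
      have h1 : x * y * x⁻¹ * y⁻¹ = g₁ * u * g₂ * u⁻¹ := h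
      calc _ = g₁ * (x * y * x⁻¹ * y⁻¹) * g₁⁻¹ := by group
        _ = _ := by rw [h1]; group)
    (by
      rintro ⟨x, y, u⟩
      exact trip (by group) (by group) (by group))
    (by
      rintro ⟨x, y, u⟩
      exact trip (by group) (by group) (by group))

theorem ga_v (z : Tr G g₁ g₂) : (ga g₁ g₂ z).1 = (z.1.1, z.1.2.1 * z.1.1, z.1.2.2) := rfl
theorem gai_v (z : Tr G g₁ g₂) : ((ga g₁ g₂)⁻¹ z).1 = (z.1.1, z.1.2.1 * z.1.1⁻¹, z.1.2.2) := rfl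
theorem gb_v (z : Tr G g₁ g₂) : (gb g₁ g₂ z).1 = (z.1.1 * z.1.2.1⁻¹, z.1.2.1, z.1.2.2) := rfl
theorem gbi_v (z : Tr G g₁ g₂) : ((gb g₁ g₂)⁻¹ z).1 = (z.1.1 * z.1.2.1, z.1.2.1, z.1.2.2) := rfl
theorem gc_v (z : Tr G g₁ g₂) :
    (gc g₁ g₂ z).1 = (z.1.1, g₁⁻¹ * z.1.1 * z.1.2.1, g₁⁻¹ * z.1.1 * z.1.2.2) := rfl
theorem gci_v (z : Tr G g₁ g₂) :
    ((gc g₁ g₂)⁻¹ z).1 = (z.1.1, z.1.1⁻¹ * g₁ * z.1.2.1, z.1.1⁻¹ * g₁ * z.1.2.2) := rfl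
theorem gt_v (z : Tr G g₁ g₂) :
    (gt g₁ g₂ z).1 = (g₁⁻¹ * z.1.1 * g₁, g₁⁻¹ * z.1.2.1 * g₁, g₁⁻¹ * z.1.2.2 * g₂) := rfl

variable (g₁ g₂) in
/-- `A` -/
def gA : Equiv.Perm (Tr G g₁ g₂) := ga g₁ g₂ * (gc g₁ g₂)⁻¹

variable (g₁ g₂) in
/-- `B` -/
def gB : Equiv.Perm (Tr G g₁ g₂) := gb g₁ g₂ * (gA g₁ g₂)⁻¹ * (gb g₁ g₂)⁻¹

theorem gA_v (z : Tr G g₁ g₂) :
    (gA g₁ g₂ z).1 = (z.1.1, z.1.1⁻¹ * g₁ * z.1.2.1 * z.1.1, z.1.1⁻¹ * g₁ * z.1.2.2) := rfl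

theorem gAi_v (z : Tr G g₁ g₂) :
    ((gA g₁ g₂)⁻¹ z).1 = (z.1.1, g₁⁻¹ * z.1.1 * (z.1.2.1 * z.1.1⁻¹), g₁⁻¹ * z.1.1 * z.1.2.2) := by
  unfold gA
  rw [mul_inv_rev, inv_inv]
  rfl

theorem gB_v (z : Tr G g₁ g₂) :
    (gB g₁ g₂ z).1 = (z.1.1 * z.1.2.1 * z.1.1 * z.1.2.1⁻¹ * z.1.1⁻¹ * g₁,
      g₁⁻¹ * z.1.1 * z.1.2.1 * z.1.1⁻¹, g₁⁻¹ * z.1.1 * z.1.2.1 * z.1.2.2) := by
  have h1 : (gB g₁ g₂ z).1 = (gb g₁ g₂ ((gA g₁ g₂)⁻¹ ((gb g₁ g₂)⁻¹ z))).1 := rfl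
  rw [h1, gb_v, gAi_v, gbi_v]
  exact trip (by group) (by group) (by group)

theorem perm_ext {P Q : Equiv.Perm (Tr G g₁ g₂)} (h : ∀ z, (P z).1 = (Q z).1) : P = Q :=
  Equiv.ext fun z => Subtype.ext (h z)

theorem gab3_v (z : Tr G g₁ g₂) :
    (((ga g₁ g₂ * gb g₁ g₂) ^ 3) z).1 = (z.1.2.1 * z.1.1⁻¹ * z.1.2.1⁻¹,
      z.1.2.1 * z.1.1 * z.1.2.1⁻¹ * z.1.1⁻¹ * z.1.2.1⁻¹, z.1.2.2) := by
  have h1 : (((ga g₁ g₂ * gb g₁ g₂) ^ 3) z) = ga g₁ g₂ (gb g₁ g₂ (ga g₁ g₂ (gb g₁ g₂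
      (ga g₁ g₂ (gb g₁ g₂ z))))) := by
    rw [pow_succ, pow_succ, pow_one]
    rfl
  rw [h1]
  simp only [ga_v, gb_v]
  exact trip (by group) (by group) rfl

theorem gab6_v (z : Tr G g₁ g₂) :
    (((ga g₁ g₂ * gb g₁ g₂) ^ 6) z).1 =
      ((z.1.1 * z.1.2.1 * z.1.1⁻¹ * z.1.2.1⁻¹)⁻¹ * z.1.1 *
        (z.1.1 * z.1.2.1 * z.1.1⁻¹ * z.1.2.1⁻¹),
      (z.1.1 * z.1.2.1 * z.1.1⁻¹ * z.1.2.1⁻¹)⁻¹ * z.1.2.1 *
        (z.1.1 * z.1.2.1 * z.1.1⁻¹ * z.1.2.1⁻¹), z.1.2.2) := by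
  have h1 : (((ga g₁ g₂ * gb g₁ g₂) ^ 6) z) = ((ga g₁ g₂ * gb g₁ g₂) ^ 3)
      (((ga g₁ g₂ * gb g₁ g₂) ^ 3) z) := by
    rw [show (6 : ℕ) = 3 + 3 from rfl, pow_add]
    rfl
  rw [h1]
  simp only [gab3_v]
  exact trip (by group) (by group) rfl

theorem r6aux (x y u h g : G) (hg : g = u⁻¹ * h⁻¹ * (x * y * x⁻¹ * y⁻¹) * u) :
    ((x * y * x⁻¹ * y⁻¹)⁻¹ * x * (x * y * x⁻¹ * y⁻¹) *
      ((x * y * x⁻¹ * y⁻¹)⁻¹ * y * (x * y * x⁻¹ * y⁻¹)) *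
      ((x * y * x⁻¹ * y⁻¹)⁻¹ * x * (x * y * x⁻¹ * y⁻¹)) *
      ((x * y * x⁻¹ * y⁻¹)⁻¹ * y * (x * y * x⁻¹ * y⁻¹))⁻¹ *
      ((x * y * x⁻¹ * y⁻¹)⁻¹ * x * (x * y * x⁻¹ * y⁻¹))⁻¹ * h)⁻¹ * h *
      (h⁻¹ * ((x * y * x⁻¹ * y⁻¹)⁻¹ * x * (x * y * x⁻¹ * y⁻¹)) *
        ((x * y * x⁻¹ * y⁻¹)⁻¹ * y * (x * y * x⁻¹ * y⁻¹)) * u) =
    h⁻¹ * (h⁻¹ * x * h) * ((h⁻¹ * x * h)⁻¹ * h * (h⁻¹ * y * h) * (h⁻¹ * x * h)) *
      ((h⁻¹ * x * h)⁻¹ * h * (h⁻¹ * u * g)) := by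
  rw [hg]
  group

variable (g₁ g₂) in
/-- the data -/
def gD : Bd (Equiv.Perm (Tr G g₁ g₂)) where
  a := ga g₁ g₂
  b := gb g₁ g₂
  A := gA g₁ g₂
  B := gB g₁ g₂
  Ts := gt g₁ g₂
  r1 := perm_ext fun z => by
    change (ga g₁ g₂ (gb g₁ g₂ (ga g₁ g₂ z))).1 = (gb g₁ g₂ (ga g₁ g₂ (gb g₁ g₂ z))).1
    simp only [ga_v, gb_v]
    exact trip (by group) (by group) rfl
  r2 := perm_ext fun z => by
    change (ga g₁ g₂ (gA g₁ g₂ z)).1 = (gA g₁ g₂ (ga g₁ g₂ z)).1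
    simp only [ga_v, gA_v]
    exact trip rfl (by group) (by group)
  r3 := perm_ext fun z => by
    change (ga g₁ g₂ (gB g₁ g₂ z)).1 = (gA g₁ g₂ (gB g₁ g₂ (ga g₁ g₂ z))).1
    simp only [ga_v, gA_v, gB_v]
    exact trip (by group) (by group) (by group)
  r4 := by
    unfold gB
    group
  r5 := perm_ext fun z => by
    change (gb g₁ g₂ (gB g₁ g₂ z)).1 = (gB g₁ g₂ (gA g₁ g₂ (gB g₁ g₂ (gb g₁ g₂ z)))).1
    simp only [gb_v, gA_v, gB_v]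
    exact trip (by group) (by group) (by group)
  r6 := by
    have h : gA g₁ g₂ * gB g₁ g₂ * (ga g₁ g₂ * gb g₁ g₂) ^ 6 = gB g₁ g₂ * gA g₁ g₂ * gt g₁ g₂ := by
      refine perm_ext fun z => ?_
      change (gA g₁ g₂ (gB g₁ g₂ (((ga g₁ g₂ * gb g₁ g₂) ^ 6) z))).1 =
        (gB g₁ g₂ (gA g₁ g₂ (gt g₁ g₂ z))).1
      have hg := eqn_g (show Eqn g₁ g₂ (z.1.1, z.1.2.1, z.1.2.2) from z.2)
      simp only [gA_v, gB_v, gab6_v, gt_v]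
      exact trip (by group) (by group) (r6aux _ _ _ _ _ hg)
    calc (ga g₁ g₂ * gb g₁ g₂) ^ 6 = (gB g₁ g₂)⁻¹ * (gA g₁ g₂)⁻¹ *
        (gA g₁ g₂ * gB g₁ g₂ * (ga g₁ g₂ * gb g₁ g₂) ^ 6) := by group
      _ = _ := by rw [h]; group
  r7 := perm_ext fun z => by
    change (ga g₁ g₂ (gt g₁ g₂ z)).1 = (gt g₁ g₂ (ga g₁ g₂ z)).1
    simp only [ga_v, gt_v]
    exact trip rfl (by group) rfl
  r8 := perm_ext fun z => by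
    change (gb g₁ g₂ (gt g₁ g₂ z)).1 = (gt g₁ g₂ (gb g₁ g₂ z)).1
    simp only [gb_v, gt_v]
    exact trip (by group) rfl rfl
  r9 := perm_ext fun z => by
    change (gA g₁ g₂ (gt g₁ g₂ z)).1 = (gt g₁ g₂ (gA g₁ g₂ z)).1
    simp only [gA_v, gt_v]
    exact trip rfl (by group) (by group)
  r10 := perm_ext fun z => by
    change (gB g₁ g₂ (gt g₁ g₂ z)).1 = (gt g₁ g₂ (gB g₁ g₂ z)).1
    simp only [gB_v, gt_v]
    exact trip (by group) (by group) (by group)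

/-- formulas for powers -/
theorem zpow_formula {T R : Type} (v : T → R) (P : Equiv.Perm T) (F : ℤ → R → R)
    (h0 : ∀ r, F 0 r = r) (h1 : ∀ z, v (P z) = F 1 (v z)) (hs : ∀ k r, F k (F 1 r) = F (k + 1) r)
    (k : ℤ) : ∀ z, v ((P ^ k) z) = F k (v z) := by
  induction k using Int.induction_on with
  | zero =>
    intro z
    rw [zpow_zero, h0]
    rfl
  | succ n ih =>
    intro z
    rw [zpow_add_one, Equiv.Perm.mul_apply, ih, h1, hs]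
  | pred n ih =>
    intro z
    have h2 : v z = F 1 (v (P⁻¹ z)) := by
      rw [← h1, ← Equiv.Perm.mul_apply, mul_inv_cancel, Equiv.Perm.one_apply]
    rw [zpow_sub_one, Equiv.Perm.mul_apply, ih, h2, hs]
    congr 1
    ring

theorem gD_a3 : (gD g₁ g₂).a3 = gc g₁ g₂ := by
  change (ga g₁ g₂ * (gc g₁ g₂)⁻¹)⁻¹ * ga g₁ g₂ = gc g₁ g₂
  group

/-- the action of the centralisers, raw -/
def rq (p₁ p₂ : G) (w : G × G × G) : G × G × G :=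
  (p₁ * w.1 * p₁⁻¹, p₁ * w.2.1 * p₁⁻¹, p₁ * w.2.2 * p₂⁻¹)

theorem rq_eqn {p₁ p₂ : G} (h1 : p₁ * g₁ = g₁ * p₁) (h2 : p₂ * g₂ = g₂ * p₂) (w : G × G × G)
    (h : Eqn g₁ g₂ w) : Eqn g₁ g₂ (rq p₁ p₂ w) := by
  obtain ⟨x, y, u⟩ := w
  have h3 : x * y * x⁻¹ * y⁻¹ = g₁ * u * g₂ * u⁻¹ := h
  change p₁ * x * p₁⁻¹ * (p₁ * y * p₁⁻¹) * (p₁ * x * p₁⁻¹)⁻¹ * (p₁ * y * p₁⁻¹)⁻¹ =
    g₁ * (p₁ * u * p₂⁻¹) * g₂ * (p₁ * u * p₂⁻¹)⁻¹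
  have h4 : p₂⁻¹ * g₂ * p₂ = g₂ := by
    rw [mul_assoc, ← h2]
    group
  calc _ = p₁ * (x * y * x⁻¹ * y⁻¹) * p₁⁻¹ := by group
    _ = (p₁ * g₁) * u * g₂ * u⁻¹ * p₁⁻¹ := by rw [h3]; group
    _ = (g₁ * p₁) * u * (p₂⁻¹ * g₂ * p₂) * u⁻¹ * p₁⁻¹ := by rw [h1, h4]
    _ = _ := by group

theorem rq_mul (p₁ p₂ r₁ r₂ : G) (w : G × G × G) :
    rq p₁ p₂ (rq r₁ r₂ w) = rq (p₁ * r₁) (p₂ * r₂) w := by
  unfold rq
  exact trip (by group) (by group) (by group)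

theorem rq_one (w : G × G × G) : rq 1 1 w = w := by
  obtain ⟨x, y, u⟩ := w
  unfold rq
  exact trip (by group) (by group) (by group)

/-- the action of the centralisers -/
def gq (V₁ V₂ : Subgroup G) (h1 : ∀ v ∈ V₁, v * g₁ = g₁ * v) (h2 : ∀ v ∈ V₂, v * g₂ = g₂ * v) :
    V₁ × V₂ →* Equiv.Perm (Tr G g₁ g₂) where
  toFun p :=
    { toFun := fun z => ⟨rq (p.1 : G) (p.2 : G) z.1, rq_eqn (h1 _ p.1.2) (h2 _ p.2.2) z.1 z.2⟩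
      invFun := fun z => ⟨rq (p.1 : G)⁻¹ (p.2 : G)⁻¹ z.1,
        rq_eqn (h1 _ (V₁.inv_mem p.1.2)) (h2 _ (V₂.inv_mem p.2.2)) z.1 z.2⟩
      left_inv := fun z => Subtype.ext (by
        change rq (p.1 : G)⁻¹ (p.2 : G)⁻¹ (rq (p.1 : G) (p.2 : G) z.1) = z.1
        rw [rq_mul, inv_mul_cancel, inv_mul_cancel, rq_one])
      right_inv := fun z => Subtype.ext (by
        change rq (p.1 : G) (p.2 : G) (rq (p.1 : G)⁻¹ (p.2 : G)⁻¹ z.1) = z.1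
        rw [rq_mul, mul_inv_cancel, mul_inv_cancel, rq_one]) }
  map_one' := perm_ext fun z => by
    change rq ((1 : V₁) : G) ((1 : V₂) : G) z.1 = z.1
    rw [Subgroup.coe_one, Subgroup.coe_one, rq_one]
  map_mul' p r := perm_ext fun z => by
    change rq (((p * r).1 : V₁) : G) (((p * r).2 : V₂) : G) z.1 =
      rq (p.1 : G) (p.2 : G) (rq (r.1 : G) (r.2 : G) z.1)
    rw [rq_mul]
    rfl

theorem brx : BrxStmt := by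
  intro G _ g₁ g₂
  refine ⟨gD g₁ g₂, ga_v, gb_v, ?_, gab6_v, gt_v, ?_, ?_, ?_, ?_⟩
  · intro z
    rw [gD_a3]
    rfl
  · intro z k
    refine zpow_formula (fun z : Tr G g₁ g₂ => z.1) (ga g₁ g₂)
      (fun k w => (w.1, w.2.1 * w.1 ^ k, w.2.2)) ?_ ?_ ?_ k z
    · rintro ⟨x, y, u⟩
      exact trip rfl (by rw [zpow_zero, mul_one]) rfl
    · intro z
      rw [ga_v]
      exact trip rfl (by rw [zpow_one]) rfl
    · rintro k ⟨x, y, u⟩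
      exact trip rfl (by rw [zpow_one, add_comm, zpow_add, zpow_one, mul_assoc]) rfl
  · intro z k
    rw [gD_a3]
    refine zpow_formula (fun z : Tr G g₁ g₂ => z.1) (gc g₁ g₂)
      (fun k w => (w.1, (g₁⁻¹ * w.1) ^ k * w.2.1, (g₁⁻¹ * w.1) ^ k * w.2.2)) ?_ ?_ ?_ k z
    · rintro ⟨x, y, u⟩
      exact trip rfl (by rw [zpow_zero, one_mul]) (by rw [zpow_zero, one_mul])
    · intro z
      rw [gc_v]
      exact trip rfl (by rw [zpow_one]) (by rw [zpow_one])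
    · rintro k ⟨x, y, u⟩
      exact trip rfl (by rw [zpow_add, mul_assoc]) (by rw [zpow_add, mul_assoc])
  · intro z k
    refine zpow_formula (fun z : Tr G g₁ g₂ => z.1) ((ga g₁ g₂ * gb g₁ g₂) ^ 6)
      (fun k w => ((w.1 * w.2.1 * w.1⁻¹ * w.2.1⁻¹) ^ (-k) * w.1 *
        (w.1 * w.2.1 * w.1⁻¹ * w.2.1⁻¹) ^ k,
        (w.1 * w.2.1 * w.1⁻¹ * w.2.1⁻¹) ^ (-k) * w.2.1 *
        (w.1 * w.2.1 * w.1⁻¹ * w.2.1⁻¹) ^ k, w.2.2)) ?_ ?_ ?_ k z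
    · rintro ⟨x, y, u⟩
      exact trip (by simp) (by simp) rfl
    · intro z
      rw [gab6_v]
      exact trip (by simp) (by simp) rfl
    · rintro k ⟨x, y, u⟩
      have hk : ∀ c : G, c = x * y * x⁻¹ * y⁻¹ →
          (c ^ (-1 : ℤ) * x * c ^ (1 : ℤ)) * (c ^ (-1 : ℤ) * y * c ^ (1 : ℤ)) *
            (c ^ (-1 : ℤ) * x * c ^ (1 : ℤ))⁻¹ * (c ^ (-1 : ℤ) * y * c ^ (1 : ℤ))⁻¹ = c := by
        intro c hc
        calc _ = c⁻¹ * (x * y * x⁻¹ * y⁻¹) * c := by group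
          _ = c := by rw [← hc]; group
      have hk1 := hk _ rfl
      refine trip ?_ ?_ rfl
      · dsimp only
        rw [hk1]
        generalize x * y * x⁻¹ * y⁻¹ = c
        rw [neg_add, zpow_add, zpow_add, ← mul_assoc, ← mul_assoc]
        group
      · dsimp only
        rw [hk1]
        generalize x * y * x⁻¹ * y⁻¹ = c
        rw [neg_add, zpow_add, zpow_add, ← mul_assoc, ← mul_assoc]
        group
  · intro V₁ V₂ h1 h2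
    have hC : ∀ (p : V₁ × V₂), Commute (ga g₁ g₂) (gq V₁ V₂ h1 h2 p) ∧
        Commute (gb g₁ g₂) (gq V₁ V₂ h1 h2 p) ∧ Commute (gc g₁ g₂) (gq V₁ V₂ h1 h2 p) ∧
        Commute (gt g₁ g₂) (gq V₁ V₂ h1 h2 p) := by
      intro p
      have e1 : (p.1 : G)⁻¹ * g₁ * p.1 = g₁ := by
        rw [mul_assoc, ← h1 _ p.1.2]
        group
      have e1' : g₁⁻¹ * (p.1 : G) = p.1 * g₁⁻¹ := by
        have := h1 _ p.1.2
        rw [inv_mul_eq_iff_eq_mul, ← mul_assoc, ← this]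
        group
      have e1'' : (p.1 : G)⁻¹ * g₁ = g₁ * (p.1 : G)⁻¹ := by
        rw [inv_mul_eq_iff_eq_mul, ← mul_assoc, h1 _ p.1.2]
        group
      have e2 : (p.2 : G)⁻¹ * g₂ = g₂ * (p.2 : G)⁻¹ := by
        rw [inv_mul_eq_iff_eq_mul, ← mul_assoc, h2 _ p.2.2]
        group
      refine ⟨perm_ext fun z => ?_, perm_ext fun z => ?_, perm_ext fun z => ?_,
        perm_ext fun z => ?_⟩
      · change (ga g₁ g₂ (gq V₁ V₂ h1 h2 p z)).1 = rq (p.1 : G) (p.2 : G) (ga g₁ g₂ z).1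
        rw [ga_v, ga_v]
        change (_, _, _) = (_, _, _)
        exact trip rfl (by
          change (p.1 : G) * z.1.2.1 * (p.1 : G)⁻¹ * ((p.1 : G) * z.1.1 * (p.1 : G)⁻¹) =
            (p.1 : G) * (z.1.2.1 * z.1.1) * (p.1 : G)⁻¹
          group) rfl
      · change (gb g₁ g₂ (gq V₁ V₂ h1 h2 p z)).1 = rq (p.1 : G) (p.2 : G) (gb g₁ g₂ z).1
        rw [gb_v, gb_v]
        exact trip (by
          change (p.1 : G) * z.1.1 * (p.1 : G)⁻¹ * ((p.1 : G) * z.1.2.1 * (p.1 : G)⁻¹)⁻¹ =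
            (p.1 : G) * (z.1.1 * z.1.2.1⁻¹) * (p.1 : G)⁻¹
          group) rfl rfl
      · change (gc g₁ g₂ (gq V₁ V₂ h1 h2 p z)).1 = rq (p.1 : G) (p.2 : G) (gc g₁ g₂ z).1
        rw [gc_v, gc_v]
        refine trip rfl ?_ ?_
        · change g₁⁻¹ * ((p.1 : G) * z.1.1 * (p.1 : G)⁻¹) * ((p.1 : G) * z.1.2.1 * (p.1 : G)⁻¹) =
            (p.1 : G) * (g₁⁻¹ * z.1.1 * z.1.2.1) * (p.1 : G)⁻¹
          calc _ = (g₁⁻¹ * (p.1 : G)) * z.1.1 * z.1.2.1 * (p.1 : G)⁻¹ := by group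
            _ = _ := by rw [e1']; group
        · change g₁⁻¹ * ((p.1 : G) * z.1.1 * (p.1 : G)⁻¹) * ((p.1 : G) * z.1.2.2 * (p.2 : G)⁻¹) =
            (p.1 : G) * (g₁⁻¹ * z.1.1 * z.1.2.2) * (p.2 : G)⁻¹
          calc _ = (g₁⁻¹ * (p.1 : G)) * z.1.1 * z.1.2.2 * (p.2 : G)⁻¹ := by group
            _ = _ := by rw [e1']; group
      · change (gt g₁ g₂ (gq V₁ V₂ h1 h2 p z)).1 = rq (p.1 : G) (p.2 : G) (gt g₁ g₂ z).1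
        rw [gt_v, gt_v]
        refine trip ?_ ?_ ?_
        · change g₁⁻¹ * ((p.1 : G) * z.1.1 * (p.1 : G)⁻¹) * g₁ =
            (p.1 : G) * (g₁⁻¹ * z.1.1 * g₁) * (p.1 : G)⁻¹
          calc _ = (g₁⁻¹ * (p.1 : G)) * z.1.1 * ((p.1 : G)⁻¹ * g₁) := by group
            _ = _ := by rw [e1', e1'']; group
        · change g₁⁻¹ * ((p.1 : G) * z.1.2.1 * (p.1 : G)⁻¹) * g₁ =
            (p.1 : G) * (g₁⁻¹ * z.1.2.1 * g₁) * (p.1 : G)⁻¹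
          calc _ = (g₁⁻¹ * (p.1 : G)) * z.1.2.1 * ((p.1 : G)⁻¹ * g₁) := by group
            _ = _ := by rw [e1', e1'']; group
        · change g₁⁻¹ * ((p.1 : G) * z.1.2.2 * (p.2 : G)⁻¹) * g₂ =
            (p.1 : G) * (g₁⁻¹ * z.1.2.2 * g₂) * (p.2 : G)⁻¹
          calc _ = (g₁⁻¹ * (p.1 : G)) * z.1.2.2 * ((p.2 : G)⁻¹ * g₂) := by group
            _ = _ := by rw [e1', e2]; group
    have hA : ∀ p, Commute (gA g₁ g₂) (gq V₁ V₂ h1 h2 p) := fun p =>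
      (hC p).1.mul_left (hC p).2.2.1.inv_left
    have hB : ∀ p, Commute (gB g₁ g₂) (gq V₁ V₂ h1 h2 p) := fun p =>
      ((hC p).2.1.mul_left (hA p).inv_left).mul_left (hC p).2.1.inv_left
    have app : ∀ {P Q : Equiv.Perm (Tr G g₁ g₂)}, Commute P Q → ∀ z, P (Q z) = Q (P z) :=
      fun h z => congrFun (congrArg DFunLike.coe h.eq) z
    refine ⟨gq V₁ V₂ h1 h2, fun p z => rfl, fun p z => app (hC p).1 z, fun p z => app (hC p).2.1 z,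
      fun p z => app (hA p) z, fun p z => app (hB p) z, fun p z => app (hC p).2.2.2 z⟩

end Pool.Agent.SOR.H19
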